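import Mathlib

set_option autoImplicit false

namespace U329.SN

open Finset Filter Topology

/-- the capped value: `min y u` for a coordinate that stays in its place (`P`), and
`u * (min (y/u) 1)^(1/s)` for a coordinate that is moved -/
noncomputable def wv (s u : ℝ) (P : Prop) [Decidable P] (y : ℝ) : ℝ :=
  if P then min y u else u * (min (y / u) 1) ^ (1 / s)

section wv

variable {s u y z t : ℝ} {P : Prop} [Decidable P]

theorem wv_nonneg (hu : 0 < u) (hy : 0 ≤ y) : 0 ≤ wv s u P y := by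
  unfold wv
  split_ifs
  · exact le_min hy hu.le
  · exact mul_nonneg hu.le (Real.rpow_nonneg (le_min (div_nonneg hy hu.le) zero_le_one) _)

theorem wv_zero (hs : 0 < s) (hu : 0 < u) : wv s u P 0 = 0 := by
  unfold wv
  split_ifs
  · exact min_eq_left hu.le
  · rw [zero_div, min_eq_left zero_le_one, Real.zero_rpow (by positivity), mul_zero]

theorem wv_le_u (hs : 0 < s) (hu : 0 < u) (hy : 0 ≤ y) : wv s u P y ≤ u := by
  unfold wv
  split_ifs
  · exact min_le_right _ _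
  · have h1 : (min (y / u) 1) ^ (1 / s) ≤ 1 :=
      Real.rpow_le_one (le_min (div_nonneg hy hu.le) zero_le_one) (min_le_right _ _)
        (by positivity)
    nlinarith

theorem wv_mono (hs : 0 < s) (hu : 0 < u) (hy : 0 ≤ y) (hyz : y ≤ z) :
    wv s u P y ≤ wv s u P z := by
  unfold wv
  split_ifs
  · exact min_le_min_right _ hyz
  · apply mul_le_mul_of_nonneg_left _ hu.le
    apply Real.rpow_le_rpow (le_min (div_nonneg hy hu.le) zero_le_one) _ (by positivity)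
    exact min_le_min_right _ (div_le_div_of_nonneg_right hyz hu.le)

theorem wv_le_y (hs : 0 < s) (hs1 : s ≤ 1) (hu : 0 < u) (hy : 0 ≤ y) : wv s u P y ≤ y := by
  unfold wv
  split_ifs
  · exact min_le_left _ _
  · have h0 : 0 ≤ min (y / u) 1 := le_min (div_nonneg hy hu.le) zero_le_one
    have h1 : (min (y / u) 1) ^ (1 / s) ≤ (min (y / u) 1) ^ (1:ℝ) := by
      apply Real.rpow_le_rpow_of_exponent_ge' h0 (min_le_right _ _) zero_le_one
      rw [le_div_iff₀ hs]; linarith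
    rw [Real.rpow_one] at h1
    calc u * (min (y / u) 1) ^ (1 / s) ≤ u * (y / u) :=
          mul_le_mul_of_nonneg_left (h1.trans (min_le_left _ _)) hu.le
      _ = y := by field_simp

theorem wv_eq_u (hu : 0 < u) (h : u ≤ y) : wv s u P y = u := by
  unfold wv
  split_ifs
  · exact min_eq_right h
  · rw [min_eq_right ((one_le_div hu).mpr h), Real.one_rpow, mul_one]

theorem wv_smul {c : ℝ} (hc : 0 < c) : wv s (c * u) P (c * y) = c * wv s u P y := by
  unfold wv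
  split_ifs
  · rw [mul_min_of_nonneg _ _ hc.le]
  · rw [mul_div_mul_left _ _ hc.ne']; ring

theorem wv_anti (hs : 0 < s) (hs1 : s ≤ 1) (ht : 0 < t) (htu : t ≤ u) (hy : 0 ≤ y) (hyt : y ≤ t) :
    wv s u P y ≤ wv s t P y := by
  have hu : 0 < u := ht.trans_le htu
  unfold wv
  split_ifs
  · rw [min_eq_left (hyt.trans htu), min_eq_left hyt]
  · have hr : 1 ≤ 1 / s := by rw [le_div_iff₀ hs]; linarith
    rw [min_eq_left ((div_le_one hu).mpr (hyt.trans htu)), min_eq_left ((div_le_one ht).mpr hyt)]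
    have e1 : y / u = (y / t) * (t / u) := by field_simp
    rw [e1, Real.mul_rpow (by positivity) (by positivity)]
    have h1 : (t / u) ^ (1 / s) ≤ (t / u) ^ (1:ℝ) := by
      apply Real.rpow_le_rpow_of_exponent_ge (by positivity) ((div_le_one hu).mpr htu) hr
    rw [Real.rpow_one] at h1
    have h2 : 0 ≤ (y / t) ^ (1 / s) := Real.rpow_nonneg (by positivity) _
    calc u * ((y / t) ^ (1 / s) * (t / u) ^ (1 / s)) ≤ u * ((y / t) ^ (1 / s) * (t / u)) := by
          apply mul_le_mul_of_nonneg_left _ hu.le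
          exact mul_le_mul_of_nonneg_left h1 h2
      _ = t * (y / t) ^ (1 / s) := by field_simp

theorem wv_add (hs : 0 < s) (hs1 : s ≤ 1) (hu : 0 < u) (hy : 0 ≤ y) (hz : 0 ≤ z) :
    (wv s u P (y + z)) ^ s ≤ (wv s u P y) ^ s + (wv s u P z) ^ s := by
  unfold wv
  split_ifs
  · have h1 : min (y + z) u ≤ min y u + min z u := by
      rcases le_total y u with h | h <;> rcases le_total z u with h' | h'
      · rw [min_eq_left h, min_eq_left h']; exact min_le_left _ _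
      · rw [min_eq_right h']; have := le_min hy hu.le
        exact (min_le_right _ _).trans (by linarith)
      · rw [min_eq_right h]; have := le_min hz hu.le
        exact (min_le_right _ _).trans (by linarith)
      · rw [min_eq_right h]; have := le_min hz hu.le
        exact (min_le_right _ _).trans (by linarith)
    have h2 : 0 ≤ min y u := le_min hy hu.le
    have h3 : 0 ≤ min z u := le_min hz hu.le
    calc (min (y + z) u) ^ s ≤ (min y u + min z u) ^ s :=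
          Real.rpow_le_rpow (le_min (by linarith) hu.le) h1 hs.le
      _ ≤ _ := Real.rpow_add_le_add_rpow h2 h3 hs.le hs1
  · have key : ∀ x : ℝ, 0 ≤ x → (u * (min (x / u) 1) ^ (1 / s)) ^ s = u ^ s * min (x / u) 1 := by
      intro x hx
      have h0 : 0 ≤ min (x / u) 1 := le_min (div_nonneg hx hu.le) zero_le_one
      rw [Real.mul_rpow hu.le (Real.rpow_nonneg h0 _), ← Real.rpow_mul h0,
        one_div_mul_cancel hs.ne', Real.rpow_one]
    rw [key _ (by linarith), key _ hy, key _ hz, ← mul_add]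
    apply mul_le_mul_of_nonneg_left _ (Real.rpow_nonneg hu.le _)
    have h1 : 0 ≤ y / u := by positivity
    have h2 : 0 ≤ z / u := by positivity
    rw [add_div]
    rcases le_total (y / u) 1 with h | h <;> rcases le_total (z / u) 1 with h' | h'
    · rw [min_eq_left h, min_eq_left h']; exact min_le_left _ _
    · rw [min_eq_right h', min_eq_left h]
      exact (min_le_right _ _).trans (by linarith)
    · rw [min_eq_right h, min_eq_left h']
      exact (min_le_right _ _).trans (by linarith)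
    · rw [min_eq_right h, min_eq_right h']
      exact (min_le_right _ _).trans (by linarith)

end wv

/-- the pointwise inequality behind `s`-convexity -/
theorem ptwise {s a b A B T : ℝ} (hs : 0 < s) (hs1 : s ≤ 1) (ha : 0 ≤ a) (hb : 0 ≤ b)
    (hA : 0 < A) (hB : 0 < B) (hT : T ^ s = A ^ s + B ^ s) (hT0 : 0 < T) (w : ℝ)
    (h : w ^ s ≤ a ^ s + b ^ s) :
    w ≤ (T / A) ^ (1 - s) * a + (T / B) ^ (1 - s) * b := by
  have hTs : 0 < T ^ s := Real.rpow_pos_of_pos hT0 _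
  have hAs : 0 < A ^ s := Real.rpow_pos_of_pos hA _
  have hBs : 0 < B ^ s := Real.rpow_pos_of_pos hB _
  set θ : ℝ := A ^ s / T ^ s with hθ
  set η : ℝ := B ^ s / T ^ s with hη
  have hsum : θ + η = 1 := by rw [hθ, hη, ← add_div, ← hT, div_self hTs.ne']
  have hθ0 : 0 ≤ θ := by positivity
  have hη0 : 0 ≤ η := by positivity
  have hconc := (Real.concaveOn_rpow hs.le hs1).2 (x := a / A) (y := b / B)
    (by simp; positivity) (by simp; positivity) hθ0 hη0 hsum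
  simp only [smul_eq_mul] at hconc
  have e1 : θ * (a / A) ^ s + η * (b / B) ^ s = (a ^ s + b ^ s) / T ^ s := by
    rw [Real.div_rpow ha hA.le, Real.div_rpow hb hB.le, hθ, hη]
    field_simp
  rw [e1] at hconc
  have hm0 : 0 ≤ θ * (a / A) + η * (b / B) := by positivity
  have h1 : w ^ s ≤ (T * (θ * (a / A) + η * (b / B))) ^ s := by
    rw [Real.mul_rpow hT0.le hm0]
    rw [div_le_iff₀ hTs] at hconc
    linarith
  have h2 : w ≤ T * (θ * (a / A) + η * (b / B)) := by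
    by_contra hcon
    push Not at hcon
    exact absurd h1 (not_le.mpr (Real.rpow_lt_rpow (by positivity) hcon hs))
  refine h2.trans (le_of_eq ?_)
  have e2 : ∀ c d : ℝ, 0 < c → T * (c ^ s / T ^ s * (d / c)) = (T / c) ^ (1 - s) * d := by
    intro c d hc
    rw [Real.div_rpow hT0.le hc.le, Real.rpow_sub hT0, Real.rpow_sub hc, Real.rpow_one,
      Real.rpow_one]
    have := Real.rpow_pos_of_pos hc s
    field_simp
  rw [mul_add, hθ, hη, e2 A a hA, e2 B b hB]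


section main

variable {𝕜 : Type*} [RCLike 𝕜] {X : Type*} [NormedAddCommGroup X] [NormedSpace 𝕜 X]

/-- data of a greedy (= unconditional and democratic) basis -/
structure GB (e : ℕ → X) (φ : ℕ → X →L[𝕜] 𝕜) (K C : ℝ) (Φ : ℕ → ℝ) : Prop where
  Kpos : 0 < K
  Cpos : 0 < C
  expand : ∀ x, HasSum (fun m => φ m x • e m) x
  uncond : ∀ (t : Finset ℕ) (x : X) (b : ℕ → 𝕜), (∀ m ∈ t, ‖b m‖ ≤ ‖φ m x‖) →
    ‖∑ m ∈ t, b m • e m‖ ≤ K * ‖x‖
  upper : ∀ (t : Finset ℕ) (b : ℕ → 𝕜), (∀ m ∈ t, ‖b m‖ ≤ 1) → ∀ τ : ℕ → ℕ, Set.InjOn τ t →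
    ‖∑ m ∈ t, b m • e (τ m)‖ ≤ Φ t.card
  lower : ∀ (t : Finset ℕ) (x : X) (r : ℝ), 0 ≤ r → (∀ m ∈ t, r ≤ ‖φ m x‖) →
    r * Φ t.card ≤ C * ‖x‖

/-- the set of values over all configurations -/
def cfg (s : ℝ) (e : ℕ → X) (φ : ℕ → X →L[𝕜] 𝕜) (x : X) : Set ℝ :=
  {r | ∃ (u : ℝ) (F : Finset ℕ) (τ : ℕ → ℕ) (b : ℕ → 𝕜), 0 < u ∧ Set.InjOn τ F ∧
    (∀ n ∈ F, ‖b n‖ ≤ wv s u (τ n = n) ‖φ n x‖) ∧ r = ‖∑ n ∈ F, b n • e (τ n)‖}

/-- the new `s`-norm -/
noncomputable def NN (s : ℝ) (e : ℕ → X) (φ : ℕ → X →L[𝕜] 𝕜) (x : X) : ℝ := sSup (cfg s e φ x)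

variable {e : ℕ → X} {φ : ℕ → X →L[𝕜] 𝕜} {K C s : ℝ} {Φ : ℕ → ℝ}

theorem zero_mem_cfg (x : X) : (0:ℝ) ∈ cfg s e φ x :=
  ⟨1, ∅, id, 0, one_pos, by simp, by simp, by simp⟩

theorem cfg_nonempty (x : X) : (cfg s e φ x).Nonempty := ⟨0, zero_mem_cfg x⟩

/-- sum over a dyadic level set -/
theorem level_bound (G : GB e φ K C Φ) (hs : 0 < s) (x : X) {u : ℝ} (hu : 0 < u)
    (D : Finset ℕ) (τ : ℕ → ℕ) (hτ : Set.InjOn τ D) (b : ℕ → 𝕜) (k : ℕ)
    (hD : ∀ n ∈ D, (1/2:ℝ) ^ (k + 1) < min (‖φ n x‖ / u) 1 ∧ min (‖φ n x‖ / u) 1 ≤ (1/2:ℝ) ^ k)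
    (hb : ∀ n ∈ D, ‖b n‖ ≤ u * (min (‖φ n x‖ / u) 1) ^ (1 / s)) :
    ‖∑ n ∈ D, b n • e (τ n)‖ ≤ (2 * C * ‖x‖) * ((1/2:ℝ) ^ (1 / s - 1)) ^ k := by
  set R : ℝ := u * ((1/2:ℝ) ^ k) ^ (1 / s) with hR
  have hRpos : 0 < R := by positivity
  have h1 : ∀ n ∈ D, ‖b n‖ ≤ R := by
    intro n hn
    refine (hb n hn).trans (mul_le_mul_of_nonneg_left ?_ hu.le)
    apply Real.rpow_le_rpow _ (hD n hn).2 (by positivity)
    exact le_min (div_nonneg (norm_nonneg _) hu.le) zero_le_one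
  have h2 : ‖∑ n ∈ D, b n • e (τ n)‖ ≤ R * Φ D.card := by
    have h3 := G.upper D (fun n => ((R : ℝ) : 𝕜)⁻¹ * b n) (by
      intro m hm
      rw [norm_mul, norm_inv, RCLike.norm_ofReal, abs_of_pos hRpos, inv_mul_le_iff₀ hRpos, mul_one]
      exact h1 m hm) τ hτ
    have h4 : ∑ m ∈ D, (((R : ℝ) : 𝕜)⁻¹ * b m) • e (τ m) = ((R : ℝ) : 𝕜)⁻¹ • ∑ n ∈ D, b n • e (τ n) := by
      rw [Finset.smul_sum]
      exact Finset.sum_congr rfl fun m _ => by rw [smul_smul]
    rw [h4, norm_smul, norm_inv, RCLike.norm_ofReal, abs_of_pos hRpos, inv_mul_le_iff₀ hRpos] at h3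
    exact h3
  have h5 := G.lower D x (u * (1/2:ℝ) ^ (k + 1)) (by positivity) (by
    intro n hn
    have h6 := (hD n hn).1.le.trans (min_le_left _ _)
    rw [le_div_iff₀ hu] at h6
    linarith)
  refine h2.trans ?_
  have e1 : ((1/2:ℝ) ^ k) ^ (1 / s) = ((1/2:ℝ) ^ (1 / s - 1)) ^ k * (1/2:ℝ) ^ k := by
    rw [← Real.rpow_natCast, ← Real.rpow_natCast, ← Real.rpow_mul (by norm_num),
      ← Real.rpow_mul (by norm_num), ← Real.rpow_add (by norm_num)]
    congr 1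
    ring
  have e2 : R * Φ D.card = (2 * (((1/2:ℝ) ^ (1 / s - 1)) ^ k)) * (u * (1/2:ℝ) ^ (k + 1) * Φ D.card) := by
    rw [hR, e1, pow_succ]
    ring
  rw [e2]
  calc (2 * (((1/2:ℝ) ^ (1 / s - 1)) ^ k)) * (u * (1/2:ℝ) ^ (k + 1) * Φ D.card)
      ≤ (2 * (((1/2:ℝ) ^ (1 / s - 1)) ^ k)) * (C * ‖x‖) :=
        mul_le_mul_of_nonneg_left h5 (by positivity)
    _ = _ := by ring

theorem moved_bound (G : GB e φ K C Φ) (hs : 0 < s) (hs1 : s < 1) (x : X) {u : ℝ} (hu : 0 < u)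
    (F : Finset ℕ) (τ : ℕ → ℕ) (hτ : Set.InjOn τ F) (b : ℕ → 𝕜)
    (hb : ∀ n ∈ F, ‖b n‖ ≤ u * (min (‖φ n x‖ / u) 1) ^ (1 / s)) :
    ‖∑ n ∈ F, b n • e (τ n)‖ ≤ (2 * C / (1 - (1/2:ℝ) ^ (1 / s - 1))) * ‖x‖ := by
  have hs2 : 0 < 1 / s - 1 := by
    rw [sub_pos, lt_div_iff₀ hs]; linarith
  set ρ : ℝ := (1/2:ℝ) ^ (1 / s - 1) with hρ
  have hρ0 : 0 ≤ ρ := by positivity
  have hρ1 : ρ < 1 := Real.rpow_lt_one (by norm_num) (by norm_num) hs2
  classical
  set z : ℕ → ℝ := fun n => min (‖φ n x‖ / u) 1 with hz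
  have hz0 : ∀ n, 0 ≤ z n := fun n => le_min (div_nonneg (norm_nonneg _) hu.le) zero_le_one
  have hz1 : ∀ n, z n ≤ 1 := fun n => min_le_right _ _
  have hex : ∀ n, ∃ k : ℕ, 0 < z n → ((1/2:ℝ) ^ (k + 1) < z n ∧ z n ≤ (1/2:ℝ) ^ k) := by
    intro n
    by_cases h : 0 < z n
    · obtain ⟨k, hk⟩ := exists_nat_pow_near_of_lt_one h (hz1 n) (by norm_num : (0:ℝ) < 1/2)
        (by norm_num)
      exact ⟨k, fun _ => hk⟩
    · exact ⟨0, fun h' => absurd h' h⟩
  choose ℓ hℓ using hex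
  set F0 := F.filter (fun n => 0 < z n) with hF0
  have hsum : ∑ n ∈ F, b n • e (τ n) = ∑ n ∈ F0, b n • e (τ n) := by
    rw [hF0, Finset.sum_filter_of_ne]
    intro n hn hne
    by_contra hcon
    have h0 : z n = 0 := le_antisymm (not_lt.mp hcon) (hz0 n)
    apply hne
    have h1 := hb n hn
    have h2 : min (‖φ n x‖ / u) 1 = 0 := h0
    rw [h2, Real.zero_rpow (by positivity), mul_zero] at h1
    rw [norm_le_zero_iff.mp h1, zero_smul]
  set M := F0.sup ℓ + 1 with hM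
  have hmaps : ∀ n ∈ F0, ℓ n ∈ Finset.range M := by
    intro n hn
    rw [Finset.mem_range, hM]
    exact Nat.lt_succ_of_le (Finset.le_sup hn)
  rw [hsum, ← Finset.sum_fiberwise_of_maps_to hmaps]
  have h3 : ∀ k ∈ Finset.range M, ‖∑ n ∈ F0 with ℓ n = k, b n • e (τ n)‖ ≤ (2 * C * ‖x‖) * ρ ^ k := by
    intro k _
    apply level_bound G hs x hu _ τ _ b k
    · intro n hn
      simp only [hF0, Finset.mem_filter] at hn
      have := hℓ n hn.1.2
      rw [hn.2] at this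
      exact this
    · intro n hn
      simp only [hF0, Finset.mem_filter] at hn
      exact hb n hn.1.1
    · intro n hn m hm h
      simp only [hF0, Finset.coe_filter, Finset.mem_filter, Set.mem_ofPred_eq] at hn hm
      exact hτ hn.1.1 hm.1.1 h
  refine (norm_sum_le _ _).trans ((Finset.sum_le_sum h3).trans ?_)
  rw [← Finset.mul_sum]
  have h4 : ∑ k ∈ Finset.range M, ρ ^ k ≤ (1 - ρ)⁻¹ := by
    rw [geom_sum_eq hρ1.ne, ← neg_div_neg_eq, neg_sub, neg_sub, ← one_div]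
    apply div_le_div_of_nonneg_right _ (by linarith)
    have := pow_nonneg hρ0 M
    linarith
  calc 2 * C * ‖x‖ * ∑ k ∈ Finset.range M, ρ ^ k ≤ 2 * C * ‖x‖ * (1 - ρ)⁻¹ :=
        mul_le_mul_of_nonneg_left h4 (by have := G.Cpos; positivity)
    _ = 2 * C / (1 - ρ) * ‖x‖ := by rw [div_eq_mul_inv]; ring

/-- the equivalence constant -/
noncomputable def KK (K C s : ℝ) : ℝ := K + 2 * C / (1 - (1/2:ℝ) ^ (1 / s - 1))

theorem KK_pos (G : GB e φ K C Φ) (hs : 0 < s) (hs1 : s < 1) : 0 < KK K C s := by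
  have hs2 : 0 < 1 / s - 1 := by
    rw [sub_pos, lt_div_iff₀ hs]; linarith
  have hρ1 : (1/2:ℝ) ^ (1 / s - 1) < 1 := Real.rpow_lt_one (by norm_num) (by norm_num) hs2
  have := G.Kpos
  have := G.Cpos
  unfold KK
  have h : 0 < 1 - (1/2:ℝ) ^ (1 / s - 1) := by linarith
  positivity

theorem cfg_le (G : GB e φ K C Φ) (hs : 0 < s) (hs1 : s < 1) (x : X) (r : ℝ)
    (hr : r ∈ cfg s e φ x) : r ≤ KK K C s * ‖x‖ := by
  obtain ⟨u, F, τ, b, hu, hτ, hb, rfl⟩ := hr
  rw [← Finset.sum_filter_add_sum_filter_not F (fun n => τ n = n)]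
  refine (norm_add_le _ _).trans ?_
  unfold KK
  rw [add_mul]
  apply add_le_add
  · have h1 : ∑ n ∈ F with τ n = n, b n • e (τ n) = ∑ n ∈ F with τ n = n, b n • e n := by
      refine Finset.sum_congr rfl fun n hn => ?_
      rw [(Finset.mem_filter.mp hn).2]
    rw [h1]
    apply G.uncond
    intro m hm
    rw [Finset.mem_filter] at hm
    exact (hb m hm.1).trans (wv_le_y hs hs1.le hu (norm_nonneg _))
  · apply moved_bound G hs hs1 x hu
    · intro n hn m hm h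
      simp only [Finset.coe_filter, Set.mem_ofPred_eq] at hn hm
      exact hτ hn.1 hm.1 h
    · intro n hn
      rw [Finset.mem_filter] at hn
      have := hb n hn.1
      unfold wv at this
      rwa [if_neg hn.2] at this

theorem cfg_bdd (G : GB e φ K C Φ) (hs : 0 < s) (hs1 : s < 1) (x : X) :
    BddAbove (cfg s e φ x) := ⟨_, fun r hr => cfg_le G hs hs1 x r hr⟩

theorem NN_le (G : GB e φ K C Φ) (hs : 0 < s) (hs1 : s < 1) (x : X) :
    NN s e φ x ≤ KK K C s * ‖x‖ := csSup_le (cfg_nonempty x) (cfg_le G hs hs1 x)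

theorem NN_nonneg (G : GB e φ K C Φ) (hs : 0 < s) (hs1 : s < 1) (x : X) : 0 ≤ NN s e φ x :=
  le_csSup (cfg_bdd G hs hs1 x) (zero_mem_cfg x)

theorem norm_le_NN (G : GB e φ K C Φ) (hs : 0 < s) (hs1 : s < 1) (x : X) :
    ‖x‖ ≤ NN s e φ x := by
  refine le_of_tendsto (G.expand x).norm (Eventually.of_forall fun t => ?_)
  apply le_csSup (cfg_bdd G hs hs1 x)
  refine ⟨1 + ∑ m ∈ t, ‖φ m x‖, t, id, fun m => φ m x, ?_, Function.injective_id.injOn, ?_, rfl⟩
  · have : 0 ≤ ∑ m ∈ t, ‖φ m x‖ := Finset.sum_nonneg fun _ _ => norm_nonneg _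
    linarith
  · intro n hn
    unfold wv
    simp only [id, if_true]
    apply le_min le_rfl
    have := Finset.single_le_sum (f := fun m => ‖φ m x‖) (fun _ _ => norm_nonneg _) hn
    linarith

theorem NN_eq_zero (G : GB e φ K C Φ) (hs : 0 < s) (hs1 : s < 1) (x : X) :
    NN s e φ x = 0 ↔ x = 0 := by
  constructor
  · intro h
    have := norm_le_NN G hs hs1 x
    rw [h] at this
    exact norm_le_zero_iff.mp this
  · intro h
    have h1 := NN_le G hs hs1 x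
    rw [h, norm_zero, mul_zero] at h1
    rw [h]
    exact le_antisymm h1 (NN_nonneg G hs hs1 0)

theorem NN_smul_le (G : GB e φ K C Φ) (hs : 0 < s) (hs1 : s < 1) (c : 𝕜) (hc : c ≠ 0) (x : X) :
    NN s e φ (c • x) ≤ ‖c‖ * NN s e φ x := by
  have hc0 : 0 < ‖c‖ := norm_pos_iff.mpr hc
  apply csSup_le (cfg_nonempty _)
  rintro r ⟨u, F, τ, b, hu, hτ, hb, rfl⟩
  have h1 : ‖∑ n ∈ F, (c⁻¹ * b n) • e (τ n)‖ ≤ NN s e φ x := by
    apply le_csSup (cfg_bdd G hs hs1 x)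
    refine ⟨‖c‖⁻¹ * u, F, τ, fun n => c⁻¹ * b n, by positivity, hτ, ?_, rfl⟩
    intro n hn
    have h2 := hb n hn
    rw [map_smul, smul_eq_mul, norm_mul] at h2
    have h3 : ‖φ n x‖ = ‖c‖⁻¹ * (‖c‖ * ‖φ n x‖) := by field_simp
    rw [norm_mul, norm_inv, h3, wv_smul (by positivity)]
    exact mul_le_mul_of_nonneg_left h2 (by positivity)
  have h4 : ∑ n ∈ F, b n • e (τ n) = c • ∑ n ∈ F, (c⁻¹ * b n) • e (τ n) := by
    rw [Finset.smul_sum]
    refine Finset.sum_congr rfl fun n _ => ?_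
    rw [smul_smul, mul_inv_cancel_left₀ hc]
  rw [h4, norm_smul]
  exact mul_le_mul_of_nonneg_left h1 hc0.le

theorem NN_smul (G : GB e φ K C Φ) (hs : 0 < s) (hs1 : s < 1) (c : 𝕜) (x : X) :
    NN s e φ (c • x) = ‖c‖ * NN s e φ x := by
  by_cases hc : c = 0
  · rw [hc, zero_smul, norm_zero, zero_mul]
    exact (NN_eq_zero G hs hs1 0).mpr rfl
  · apply le_antisymm (NN_smul_le G hs hs1 c hc x)
    have hc0 : 0 < ‖c‖ := norm_pos_iff.mpr hc
    have h1 := NN_smul_le G hs hs1 c⁻¹ (inv_ne_zero hc) (c • x)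
    rw [smul_smul, inv_mul_cancel₀ hc, one_smul, norm_inv] at h1
    rwa [← div_eq_inv_mul, le_div_iff₀ hc0, mul_comm] at h1

/-- splitting a scalar -/
theorem split_scalar (b : 𝕜) (A B : ℝ) (hA : 0 ≤ A) (hB : 0 ≤ B) (h : ‖b‖ ≤ A + B) :
    ∃ b₁ b₂ : 𝕜, b = b₁ + b₂ ∧ ‖b₁‖ ≤ A ∧ ‖b₂‖ ≤ B := by
  rcases (add_nonneg hA hB).eq_or_lt with h0 | h0
  · rw [← h0] at h
    have hb : b = 0 := norm_le_zero_iff.mp h
    exact ⟨0, 0, by rw [hb, add_zero], by rwa [norm_zero], by rwa [norm_zero]⟩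
  · refine ⟨((A / (A + B) : ℝ) : 𝕜) * b, ((B / (A + B) : ℝ) : 𝕜) * b, ?_, ?_, ?_⟩
    · rw [← add_mul, ← RCLike.ofReal_add, ← add_div, div_self h0.ne', RCLike.ofReal_one, one_mul]
    · rw [norm_mul, RCLike.norm_ofReal, abs_of_nonneg (by positivity)]
      calc A / (A + B) * ‖b‖ ≤ A / (A + B) * (A + B) :=
            mul_le_mul_of_nonneg_left h (by positivity)
        _ = A := div_mul_cancel₀ _ h0.ne'
    · rw [norm_mul, RCLike.norm_ofReal, abs_of_nonneg (by positivity)]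
      calc B / (A + B) * ‖b‖ ≤ B / (A + B) * (A + B) :=
            mul_le_mul_of_nonneg_left h (by positivity)
        _ = B := div_mul_cancel₀ _ h0.ne'

/-- scaled version of the bound of a configuration -/
theorem cfg_scaled (G : GB e φ K C Φ) (hs : 0 < s) (hs1 : s < 1) (x : X) {u : ℝ} (hu : 0 < u)
    (F : Finset ℕ) (τ : ℕ → ℕ) (hτ : Set.InjOn τ F) (b : ℕ → 𝕜) (R : ℝ) (hR : 0 < R)
    (hb : ∀ n ∈ F, ‖b n‖ ≤ R * wv s u (τ n = n) ‖φ n x‖) :
    ‖∑ n ∈ F, b n • e (τ n)‖ ≤ R * NN s e φ x := by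
  have h1 : ‖∑ n ∈ F, (((R : ℝ) : 𝕜)⁻¹ * b n) • e (τ n)‖ ≤ NN s e φ x := by
    apply le_csSup (cfg_bdd G hs hs1 x)
    refine ⟨u, F, τ, fun n => ((R : ℝ) : 𝕜)⁻¹ * b n, hu, hτ, ?_, rfl⟩
    intro n hn
    rw [norm_mul, norm_inv, RCLike.norm_ofReal, abs_of_pos hR, inv_mul_le_iff₀ hR]
    exact hb n hn
  have h4 : ∑ m ∈ F, (((R : ℝ) : 𝕜)⁻¹ * b m) • e (τ m) = ((R : ℝ) : 𝕜)⁻¹ • ∑ n ∈ F, b n • e (τ n) := by
    rw [Finset.smul_sum]
    exact Finset.sum_congr rfl fun m _ => by rw [smul_smul]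
  rwa [h4, norm_smul, norm_inv, RCLike.norm_ofReal, abs_of_pos hR, inv_mul_le_iff₀ hR] at h1

theorem NN_add (G : GB e φ K C Φ) (hs : 0 < s) (hs1 : s < 1) (x y : X) :
    NN s e φ (x + y) ^ s ≤ NN s e φ x ^ s + NN s e φ y ^ s := by
  rcases (NN_nonneg G hs hs1 x).eq_or_lt with hx | hx
  · have h := (NN_eq_zero G hs hs1 x).mp hx.symm
    rw [h, zero_add, (NN_eq_zero G hs hs1 0).mpr rfl, Real.zero_rpow hs.ne', zero_add]
  rcases (NN_nonneg G hs hs1 y).eq_or_lt with hy | hy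
  · have h := (NN_eq_zero G hs hs1 y).mp hy.symm
    rw [h, add_zero, (NN_eq_zero G hs hs1 0).mpr rfl, Real.zero_rpow hs.ne', add_zero]
  set P := NN s e φ x with hP
  set Q := NN s e φ y with hQ
  have hPs : 0 < P ^ s := Real.rpow_pos_of_pos hx _
  have hQs : 0 < Q ^ s := Real.rpow_pos_of_pos hy _
  set T := (P ^ s + Q ^ s) ^ (1 / s) with hT
  have hT0 : 0 < T := Real.rpow_pos_of_pos (by positivity) _
  have hTs : T ^ s = P ^ s + Q ^ s := by
    rw [hT, ← Real.rpow_mul (by positivity), one_div_mul_cancel hs.ne', Real.rpow_one]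
  have key : NN s e φ (x + y) ≤ T := by
    apply csSup_le (cfg_nonempty _)
    rintro r ⟨u, F, τ, b, hu, hτ, hb, rfl⟩
    have hdec : ∀ n, ∃ b₁ b₂ : 𝕜, n ∈ F → (b n = b₁ + b₂ ∧
        ‖b₁‖ ≤ (T / P) ^ (1 - s) * wv s u (τ n = n) ‖φ n x‖ ∧
        ‖b₂‖ ≤ (T / Q) ^ (1 - s) * wv s u (τ n = n) ‖φ n y‖) := by
      intro n
      by_cases hn : n ∈ F
      · have hw1 := wv_nonneg (s := s) (P := τ n = n) hu (norm_nonneg (φ n x))
        have hw2 := wv_nonneg (s := s) (P := τ n = n) hu (norm_nonneg (φ n y))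
        have h1 : wv s u (τ n = n) ‖φ n (x + y)‖ ≤ wv s u (τ n = n) (‖φ n x‖ + ‖φ n y‖) := by
          apply wv_mono hs hu (norm_nonneg _)
          rw [map_add]
          exact norm_add_le _ _
        have h2 := wv_add (P := τ n = n) hs hs1.le hu (norm_nonneg (φ n x)) (norm_nonneg (φ n y))
        have h3 := ptwise hs hs1.le hw1 hw2 hx hy hTs hT0 (wv s u (τ n = n) (‖φ n x‖ + ‖φ n y‖))
          h2
        obtain ⟨b₁, b₂, h4, h5, h6⟩ := split_scalar (b n)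
          ((T / P) ^ (1 - s) * wv s u (τ n = n) ‖φ n x‖)
          ((T / Q) ^ (1 - s) * wv s u (τ n = n) ‖φ n y‖)
          (mul_nonneg (Real.rpow_nonneg (by positivity) _) hw1)
          (mul_nonneg (Real.rpow_nonneg (by positivity) _) hw2)
          ((hb n hn).trans (h1.trans h3))
        exact ⟨b₁, b₂, fun _ => ⟨h4, h5, h6⟩⟩
      · exact ⟨0, 0, fun h => absurd h hn⟩
    choose b₁ b₂ hbb using hdec
    have h1 : ∑ n ∈ F, b n • e (τ n) = ∑ n ∈ F, b₁ n • e (τ n) + ∑ n ∈ F, b₂ n • e (τ n) := by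
      rw [← Finset.sum_add_distrib]
      refine Finset.sum_congr rfl fun n hn => ?_
      rw [(hbb n hn).1, add_smul]
    rw [h1]
    have h2 := cfg_scaled G hs hs1 x hu F τ hτ b₁ ((T / P) ^ (1 - s))
      (Real.rpow_pos_of_pos (by positivity) _) (fun n hn => (hbb n hn).2.1)
    have h3 := cfg_scaled G hs hs1 y hu F τ hτ b₂ ((T / Q) ^ (1 - s))
      (Real.rpow_pos_of_pos (by positivity) _) (fun n hn => (hbb n hn).2.2)
    refine (norm_add_le _ _).trans ((add_le_add h2 h3).trans (le_of_eq ?_))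
    rw [← hP, ← hQ]
    have e1 : ∀ c : ℝ, 0 < c → (T / c) ^ (1 - s) * c = T * (c ^ s / T ^ s) := by
      intro c hc
      rw [Real.div_rpow hT0.le hc.le, Real.rpow_sub hT0, Real.rpow_sub hc, Real.rpow_one,
        Real.rpow_one]
      have := Real.rpow_pos_of_pos hc s
      field_simp
    rw [e1 P hx, e1 Q hy, ← mul_add, ← add_div, ← hTs,
      div_self (Real.rpow_pos_of_pos hT0 _).ne', mul_one]
  calc NN s e φ (x + y) ^ s ≤ T ^ s :=
        Real.rpow_le_rpow (NN_nonneg G hs hs1 _) key hs.le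
    _ = _ := hTs

/-- the greedy property -/
theorem NN_greedy (G : GB e φ K C Φ) (hs : 0 < s) (hs1 : s < 1)
    (f f₁ g : X) (A B : Finset ℕ) (hcard : B.card ≤ A.card)
    (hA : ∀ i ∈ A, ∀ j, j ∉ A → ‖φ j f‖ ≤ ‖φ i f‖)
    (h0 : ∀ i ∈ A, φ i f₁ = 0) (h1 : ∀ i, i ∉ A → φ i f₁ = φ i f)
    (h2 : ∀ i, i ∉ B → φ i g = φ i f) : NN s e φ f₁ ≤ NN s e φ g := by
  classical
  apply csSup_le (cfg_nonempty _)
  rintro r ⟨u', F, τ, b, hu', hτ, hb', rfl⟩
  rcases A.eq_empty_or_nonempty with hAe | hAe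
  · -- nothing is removed
    subst hAe
    have hBe : B = ∅ := by simpa using hcard
    apply le_csSup (cfg_bdd G hs hs1 g)
    refine ⟨u', F, τ, b, hu', hτ, ?_, rfl⟩
    intro n hn
    rw [h2 n (by simp [hBe]), ← h1 n (by simp)]
    exact hb' n hn
  obtain ⟨i₀, hi₀, hmin⟩ := A.exists_min_image (fun i => ‖φ i f‖) hAe
  set t := ‖φ i₀ f‖ with ht
  have hf1t : ∀ n, ‖φ n f₁‖ ≤ t := by
    intro n
    by_cases hn : n ∈ A
    · rw [h0 n hn, norm_zero]; exact norm_nonneg _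
    · rw [h1 n hn]; exact hA i₀ hi₀ n hn
  rcases (norm_nonneg (φ i₀ f)).eq_or_lt with ht0 | ht0
  · -- all coefficients of `f₁` vanish
    have hz : ∀ n ∈ F, b n = 0 := by
      intro n hn
      have h3 : φ n f₁ = 0 := norm_le_zero_iff.mp ((hf1t n).trans (by rw [ht, ← ht0]))
      have h4 := hb' n hn
      rw [h3, norm_zero, wv_zero hs hu'] at h4
      exact norm_le_zero_iff.mp h4
    rw [Finset.sum_congr rfl (fun n hn => by rw [hz n hn, zero_smul]), Finset.sum_const_zero,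
      norm_zero]
    exact NN_nonneg G hs hs1 g
  -- reduce to `u ≤ t`
  obtain ⟨u, hu, hut, hb⟩ : ∃ u : ℝ, 0 < u ∧ u ≤ t ∧
      ∀ n ∈ F, ‖b n‖ ≤ wv s u (τ n = n) ‖φ n f₁‖ := by
    rcases le_total u' t with h | h
    · exact ⟨u', hu', h, hb'⟩
    · exact ⟨t, ht0, le_rfl, fun n hn => (hb' n hn).trans
        (wv_anti hs hs1.le ht0 h (norm_nonneg _) (hf1t n))⟩
  -- an injection of `B \ A` into `A \ B`
  have hc : (B \ A).card ≤ (A \ B).card := by
    have e1 := Finset.card_sdiff_add_card_inter B A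
    have e2 := Finset.card_sdiff_add_card_inter A B
    rw [Finset.inter_comm] at e2
    omega
  obtain ⟨β, hβmaps, hβinj⟩ : ∃ β : ℕ → ℕ, (∀ n ∈ B \ A, β n ∈ A \ B) ∧
      Set.InjOn β (B \ A : Finset ℕ) := by
    have h3 : Fintype.card (B \ A : Finset ℕ) ≤ Fintype.card (A \ B : Finset ℕ) := by
      rw [Fintype.card_coe, Fintype.card_coe]; exact hc
    obtain ⟨emb⟩ := Function.Embedding.nonempty_of_card_le h3
    refine ⟨fun n => if h : n ∈ B \ A then (emb ⟨n, h⟩ : ℕ) else n, ?_, ?_⟩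
    · intro n hn
      simp only [dif_pos hn]
      exact (emb ⟨n, hn⟩).2
    · intro n hn m hm h
      have hn' : n ∈ B \ A := hn
      have hm' : m ∈ B \ A := hm
      simp only [dif_pos hn', dif_pos hm'] at h
      have := emb.injective (Subtype.ext h)
      exact congrArg Subtype.val this
  obtain ⟨γ, hγ⟩ : ∃ γ : ℕ → ℕ, ∀ n ∈ B \ A, γ (β n) = n := by
    refine ⟨Function.invFunOn β (B \ A : Finset ℕ), fun n hn => ?_⟩
    exact hβinj.leftInvOn_invFunOn (by exact hn)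
  set F1 := F.filter (fun n => n ∉ A ∧ n ∉ B) with hF1
  set F2 := F.filter (fun n => n ∉ A ∧ n ∈ B) with hF2
  have hF2m : ∀ n ∈ F2, n ∈ F ∧ n ∈ B \ A := by
    intro n hn
    rw [hF2, Finset.mem_filter] at hn
    exact ⟨hn.1, Finset.mem_sdiff.mpr ⟨hn.2.2, hn.2.1⟩⟩
  have hF1m : ∀ n ∈ F1, n ∈ F ∧ n ∉ A ∧ n ∉ B := by
    intro n hn
    rw [hF1, Finset.mem_filter] at hn
    exact hn
  have hsum : ∑ n ∈ F, b n • e (τ n) = ∑ n ∈ F1, b n • e (τ n) + ∑ n ∈ F2, b n • e (τ n) := by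
    rw [hF1, hF2, Finset.sum_filter, Finset.sum_filter, ← Finset.sum_add_distrib]
    refine Finset.sum_congr rfl fun n hn => ?_
    by_cases hnA : n ∈ A
    · have h3 := hb n hn
      rw [h0 n hnA, norm_zero, wv_zero hs hu] at h3
      rw [norm_le_zero_iff.mp h3]
      simp
    · by_cases hnB : n ∈ B <;> simp [hnA, hnB]
  set τ' : ℕ → ℕ := fun m => if m ∈ A then τ (γ m) else τ m with hτ'
  set b' : ℕ → 𝕜 := fun m => if m ∈ A then b (γ m) else b m with hb'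
  have hβA : ∀ n ∈ F2, β n ∈ A := fun n hn => (Finset.mem_sdiff.mp (hβmaps n (hF2m n hn).2)).1
  have hdisj : Disjoint F1 (F2.image β) := by
    rw [Finset.disjoint_left]
    intro m hm hm2
    rw [Finset.mem_image] at hm2
    obtain ⟨n, hn, rfl⟩ := hm2
    exact (hF1m _ hm).2.1 (hβA n hn)
  have hinj2 : Set.InjOn β F2 := by
    intro n hn m hm h
    exact hβinj (by exact (hF2m n hn).2) (by exact (hF2m m hm).2) h
  have hval : ‖∑ n ∈ F, b n • e (τ n)‖ = ‖∑ m ∈ F1 ∪ F2.image β, b' m • e (τ' m)‖ := by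
    rw [hsum, Finset.sum_union hdisj, Finset.sum_image hinj2]
    congr 2
    · refine Finset.sum_congr rfl fun n hn => ?_
      have := (hF1m n hn).2.1
      simp only [hb', hτ', if_neg this]
    · refine Finset.sum_congr rfl fun n hn => ?_
      simp only [hb', hτ', if_pos (hβA n hn), hγ n (hF2m n hn).2]
  rw [hval]
  apply le_csSup (cfg_bdd G hs hs1 g)
  refine ⟨u, F1 ∪ F2.image β, τ', b', hu, ?_, ?_, rfl⟩
  · intro m hm m' hm' h
    rw [Finset.coe_union, Set.mem_union, Finset.mem_coe, Finset.mem_coe, Finset.mem_image] at hm hm'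
    rcases hm with hm | ⟨n, hn, rfl⟩ <;> rcases hm' with hm' | ⟨n', hn', rfl⟩
    · simp only [hτ', if_neg (hF1m m hm).2.1, if_neg (hF1m m' hm').2.1] at h
      exact hτ (hF1m m hm).1 (hF1m m' hm').1 h
    · simp only [hτ', if_neg (hF1m m hm).2.1, if_pos (hβA n' hn'), hγ n' (hF2m n' hn').2] at h
      have h3 := hτ (hF1m m hm).1 (hF2m n' hn').1 h
      exact absurd (h3 ▸ (Finset.mem_sdiff.mp (hF2m n' hn').2).1) (hF1m m hm).2.2
    · simp only [hτ', if_neg (hF1m m' hm').2.1, if_pos (hβA n hn), hγ n (hF2m n hn).2] at h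
      have h3 := hτ (hF2m n hn).1 (hF1m m' hm').1 h
      exact absurd (h3 ▸ (Finset.mem_sdiff.mp (hF2m n hn).2).1) (hF1m m' hm').2.2
    · simp only [hτ', if_pos (hβA n hn), hγ n (hF2m n hn).2, if_pos (hβA n' hn'),
        hγ n' (hF2m n' hn').2] at h
      rw [hτ (hF2m n hn).1 (hF2m n' hn').1 h]
  · intro m hm
    rw [Finset.mem_union, Finset.mem_image] at hm
    rcases hm with hm | ⟨n, hn, rfl⟩
    · have h3 := hF1m m hm
      have h4 := hb m h3.1
      rw [h1 m h3.2.1, ← h2 m h3.2.2] at h4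
      simp only [hb', hτ', if_neg h3.2.1]
      exact h4
    · have h3 := hF2m n hn
      have h4 : ‖b n‖ ≤ u := (hb n h3.1).trans (wv_le_u hs hu (norm_nonneg _))
      have h5 : β n ∈ A \ B := hβmaps n h3.2
      rw [Finset.mem_sdiff] at h5
      have h6 : u ≤ ‖φ (β n) g‖ := by
        rw [h2 _ h5.2]
        exact hut.trans (hmin _ h5.1)
      rw [wv_eq_u hu h6]
      simp only [hb', if_pos h5.1, hγ n h3.2]
      exact h4

end main

end U329.SN
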