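import Pool.Agent.H75R3.HaarBasis
import Pool.Agent.U329.SN.Abs

set_option autoImplicit false
set_option linter.unusedSectionVars false

namespace U329.SN

open Finset MeasureTheory Filter Topology H75R3
open scoped ENNReal

theorem wt_pos (m : ℕ) : 0 < wt m := by
  unfold wt
  split_ifs <;> positivity

theorem wt_nd (n : ℕ) (y : ℝ) : wt (nd n y) = 2 ^ n := by
  have h := nd_mem n y
  have := L_pos h
  unfold wt
  rw [if_neg (by omega), log_L h]

/-- constant -/
noncomputable def c0 (P : ℝ) : ℝ := 1 + (2:ℝ) ^ (1 / P) / ((2:ℝ) ^ (1 / P) - 1)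

theorem two_rpow_gt {P : ℝ} (hP : 0 < P) : 1 < (2:ℝ) ^ (1 / P) :=
  Real.one_lt_rpow (by norm_num) (by positivity)

theorem c0_pos {P : ℝ} (hP : 0 < P) : 0 < c0 P := by
  have := two_rpow_gt hP
  unfold c0
  have h : 0 < (2:ℝ) ^ (1 / P) - 1 := by linarith
  positivity

theorem hr_norm_cases (m : ℕ) (y : ℝ) : ‖hr m y‖ = 0 ∨ (‖hr m y‖ = 1 ∧ (m = 0 ∨ m = nd (Nat.log 2 m) y)) := by
  unfold hr
  split_ifs with h1 h2 h3
  · right; simp [h1]
  · right; simp [h2]
  · right; simp [h2]
  · left; simp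

theorem sum_wt_le {P : ℝ} (hP : 0 < P) (t : Finset ℕ) (y : ℝ) :
    (∑ m ∈ t, (wt m) ^ (1 / P) * ‖hr m y‖) ^ P ≤ c0 P ^ P * ∑ m ∈ t, wt m * ‖hr m y‖ := by
  classical
  set q : ℝ := (2:ℝ) ^ (1 / P) with hq
  have hq1 : 1 < q := two_rpow_gt hP
  set S := t.filter (fun m => ‖hr m y‖ = 1) with hS
  have e1 : ∀ f : ℕ → ℝ, ∑ m ∈ t, f m * ‖hr m y‖ = ∑ m ∈ S, f m := by
    intro f
    rw [hS, Finset.sum_filter]
    refine Finset.sum_congr rfl fun m _ => ?_
    rcases hr_norm_cases m y with h | ⟨h, _⟩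
    · rw [h, mul_zero, if_neg (by norm_num)]
    · rw [h, mul_one, if_pos rfl]
  rw [e1, e1]
  rcases S.eq_empty_or_nonempty with he | he
  · rw [he, Finset.sum_empty, Finset.sum_empty, mul_zero, Real.zero_rpow hP.ne']
  obtain ⟨M, hM, hmax⟩ := S.exists_max_image wt he
  have hMw : ∃ n, wt M = 2 ^ n := by
    unfold wt
    split_ifs
    · exact ⟨0, by simp⟩
    · exact ⟨_, rfl⟩
  obtain ⟨n, hn⟩ := hMw
  have hsub : S ⊆ insert 0 ((Finset.range (n + 1)).image (fun k => nd k y)) := by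
    intro m hm
    have h1 : ‖hr m y‖ = 1 := (Finset.mem_filter.mp hm).2
    rcases hr_norm_cases m y with h | ⟨_, h | h⟩
    · rw [h1] at h; norm_num at h
    · rw [h]; exact Finset.mem_insert_self _ _
    · apply Finset.mem_insert_of_mem
      rw [Finset.mem_image]
      refine ⟨Nat.log 2 m, ?_, h.symm⟩
      rw [Finset.mem_range]
      have h2 := hmax m hm
      rw [hn, h, wt_nd] at h2
      have h3 := (pow_le_pow_iff_right₀ (by norm_num : (1:ℝ) < 2)).mp h2
      omega
  have hwp : ∀ m, 0 ≤ (wt m) ^ (1 / P) := fun m => Real.rpow_nonneg (wt_pos m).le _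
  have hw0 : (wt 0) ^ (1 / P) = 1 := by
    have : wt 0 = 1 := by unfold wt; simp
    rw [this, Real.one_rpow]
  have hbound : ∑ m ∈ S, (wt m) ^ (1 / P) ≤ q ^ n * c0 P := by
    calc ∑ m ∈ S, (wt m) ^ (1 / P)
        ≤ ∑ m ∈ insert 0 ((Finset.range (n + 1)).image (fun k => nd k y)), (wt m) ^ (1 / P) :=
          Finset.sum_le_sum_of_subset_of_nonneg hsub (fun m _ _ => hwp m)
      _ ≤ 1 + ∑ m ∈ (Finset.range (n + 1)).image (fun k => nd k y), (wt m) ^ (1 / P) := by
          by_cases h0 : 0 ∈ (Finset.range (n + 1)).image (fun k => nd k y)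
          · rw [Finset.insert_eq_of_mem h0]; linarith
          · rw [Finset.sum_insert h0, hw0]
      _ = 1 + ∑ k ∈ Finset.range (n + 1), q ^ k := by
          rw [Finset.sum_image]
          · congr 1
            refine Finset.sum_congr rfl fun k _ => ?_
            rw [wt_nd, hq, ← Real.rpow_natCast, ← Real.rpow_natCast, ← Real.rpow_mul (by norm_num),
              ← Real.rpow_mul (by norm_num), mul_comm]
          · intro k _ l _ h
            have h1 := wt_nd k y
            have h2 := wt_nd l y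
            simp only at h
            rw [h, h2] at h1
            exact (pow_right_injective₀ (by norm_num : (0:ℝ) < 2) (by norm_num)) h1.symm
      _ ≤ q ^ n + q ^ n * (q / (q - 1)) := by
          apply add_le_add (one_le_pow₀ hq1.le)
          rw [geom_sum_eq hq1.ne', ← mul_div_assoc]
          apply div_le_div_of_nonneg_right _ (by linarith)
          rw [pow_succ]
          linarith
      _ = q ^ n * c0 P := by unfold c0; rw [← hq]; ring
  have hsum0 : 0 ≤ ∑ m ∈ S, (wt m) ^ (1 / P) := Finset.sum_nonneg fun m _ => hwp m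
  calc (∑ m ∈ S, (wt m) ^ (1 / P)) ^ P ≤ (q ^ n * c0 P) ^ P :=
        Real.rpow_le_rpow hsum0 hbound hP.le
    _ = c0 P ^ P * wt M := by
        rw [Real.mul_rpow (by positivity) (c0_pos hP).le, mul_comm, hn, hq]
        congr 1
        rw [← Real.rpow_natCast, ← Real.rpow_natCast, ← Real.rpow_mul (by positivity),
          ← Real.rpow_mul (by norm_num)]
        congr 1
        field_simp
    _ ≤ c0 P ^ P * ∑ m ∈ S, wt m := by
        apply mul_le_mul_of_nonneg_left _ (Real.rpow_nonneg (c0_pos hP).le _)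
        exact Finset.single_le_sum (f := wt) (fun m _ => (wt_pos m).le) hM

variable {X : Type*} [MeasurableSpace X] {μ : Measure X} [IsProbabilityMeasure μ]
  {g : X → ℝ}

theorem hr_gmeas (hgm : Measurable g) (m : ℕ) : Measurable (fun x => hr m (g x)) :=
  (hr_meas m).comp hgm

theorem integrable_norm_hr (hgm : Measurable g) (m : ℕ) :
    Integrable (fun x => ‖hr m (g x)‖) μ := by
  apply Integrable.norm
  apply Integrable.of_bound (hr_gmeas hgm m).aestronglyMeasurable 1
  exact Eventually.of_forall fun x => norm_hr_le m (g x)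

theorem integral_norm_hr (hg : MeasurePreserving g μ (volume.restrict (Set.Ico (0:ℝ) 1))) (m : ℕ) :
    wt m * ∫ x, ‖hr m (g x)‖ ∂μ = 1 := by
  by_cases h0 : m = 0
  · subst h0
    have : (fun x => ‖hr 0 (g x)‖) = fun _ => (1:ℝ) := by
      funext x; rw [hr_zero, norm_one]
    rw [this, integral_const]
    simp [wt]
  · set n := Nat.log 2 m with hn
    have hmL : m ∈ L n := mem_L.mpr ⟨Nat.pow_log_le_self 2 h0, Nat.lt_pow_succ_log_self (by norm_num) m⟩
    have e : (fun x => ‖hr m (g x)‖) = fun x => (fun j => if j = m then (1:ℝ) else 0) (nd n (g x)) := by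
      funext x
      unfold hr
      rw [if_neg h0, ← hn]
      simp only
      split_ifs <;> simp
    have h1 := integral_nd hg n (fun j => if j = m then (1:ℝ) else 0)
    rw [e, h1, Finset.sum_ite_eq' (L n) m, if_pos hmL]
    have : wt m = 2 ^ n := by
      unfold wt
      rw [if_neg h0]
    rw [this, smul_eq_mul, mul_one, mul_inv_cancel₀ (by positivity)]

/-- upper democracy estimate, integral form -/
theorem up_int (hg : MeasurePreserving g μ (volume.restrict (Set.Ico (0:ℝ) 1))) {P : ℝ} (hP : 0 < P)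
    (t : Finset ℕ) (b : ℕ → ℂ) (hb : ∀ m ∈ t, ‖b m‖ ≤ 1) :
    ∫ x, ‖∑ m ∈ t, (b m * ((wt m ^ (1 / P) : ℝ) : ℂ)) * hr m (g x)‖ ^ P ∂μ ≤ c0 P ^ P * t.card := by
  have hpt : ∀ x, ‖∑ m ∈ t, (b m * ((wt m ^ (1 / P) : ℝ) : ℂ)) * hr m (g x)‖ ^ P ≤
      c0 P ^ P * ∑ m ∈ t, wt m * ‖hr m (g x)‖ := by
    intro x
    refine le_trans (Real.rpow_le_rpow (norm_nonneg _) ?_ hP.le) (sum_wt_le hP t (g x))
    refine (norm_sum_le _ _).trans (Finset.sum_le_sum fun m hm => ?_)
    rw [norm_mul, norm_mul, Complex.norm_real, Real.norm_of_nonneg (Real.rpow_nonneg (wt_pos m).le _)]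
    apply mul_le_mul_of_nonneg_right _ (norm_nonneg _)
    have := hb m hm
    have h2 := Real.rpow_nonneg (wt_pos m).le (1 / P)
    nlinarith
  have hint : Integrable (fun x => c0 P ^ P * ∑ m ∈ t, wt m * ‖hr m (g x)‖) μ := by
    apply Integrable.const_mul
    apply integrable_finsetSum
    intro m _
    exact (integrable_norm_hr hg.measurable m).const_mul _
  calc ∫ x, ‖∑ m ∈ t, (b m * ((wt m ^ (1 / P) : ℝ) : ℂ)) * hr m (g x)‖ ^ P ∂μ
      ≤ ∫ x, c0 P ^ P * ∑ m ∈ t, wt m * ‖hr m (g x)‖ ∂μ := by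
        apply integral_mono_of_nonneg
        · exact Eventually.of_forall fun x => Real.rpow_nonneg (norm_nonneg _) _
        · exact hint
        · exact Eventually.of_forall hpt
    _ = c0 P ^ P * t.card := by
        rw [integral_const_mul, integral_finsetSum _
          (fun m _ => (integrable_norm_hr hg.measurable m).const_mul _)]
        congr 1
        rw [Finset.sum_congr rfl (fun m _ => by rw [integral_const_mul, integral_norm_hr hg m])]
        simp

section Lp

variable {p : ℝ≥0∞} [hp1 : Fact (1 ≤ p)]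

/-- normalised Haar functions in `L^p` -/
noncomputable def en (μ : Measure X) [IsProbabilityMeasure μ] (p : ℝ≥0∞) [hp1 : Fact (1 ≤ p)]
    (hgm : Measurable g) (m : ℕ) : Lp ℂ p μ :=
  ((wt m ^ (1 / p.toReal) : ℝ) : ℂ) • eh μ p hgm m

/-- normalised Haar coefficients -/
noncomputable def pn (μ : Measure X) [IsProbabilityMeasure μ] (p : ℝ≥0∞) [hp1 : Fact (1 ≤ p)]
    (hgm : Measurable g) (m : ℕ) : Lp ℂ p μ →L[ℂ] ℂ :=
  (((wt m ^ (1 / p.toReal))⁻¹ : ℝ) : ℂ) • ph μ p hgm m

theorem wtp_pos (P : ℝ) (m : ℕ) : 0 < wt m ^ (1 / P) := Real.rpow_pos_of_pos (wt_pos m) _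

theorem pn_en_smul (hgm : Measurable g) (m : ℕ) (x : Lp ℂ p μ) :
    pn μ p hgm m x • en μ p hgm m = ph μ p hgm m x • eh μ p hgm m := by
  have h := (wtp_pos p.toReal m).ne'
  have h' : (((wt m ^ (1 / p.toReal)) : ℝ) : ℂ) ≠ 0 := by exact_mod_cast h
  unfold pn en
  rw [_root_.smul_apply, smul_eq_mul, smul_smul]
  congr 1
  rw [Complex.ofReal_inv, mul_comm, ← mul_assoc, mul_inv_cancel₀ h', one_mul]

theorem pn_en (hg : MeasurePreserving g μ (volume.restrict (Set.Ico (0:ℝ) 1))) (m k : ℕ) :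
    pn μ p hg.measurable m (en μ p hg.measurable k) = if m = k then 1 else 0 := by
  unfold pn en
  rw [_root_.smul_apply, map_smul, ph_eh hg]
  split_ifs with h
  · subst h
    have h := (wtp_pos p.toReal m).ne'
    have h' : (((wt m ^ (1 / p.toReal)) : ℝ) : ℂ) ≠ 0 := by exact_mod_cast h
    rw [smul_eq_mul, smul_eq_mul, mul_one, Complex.ofReal_inv, inv_mul_cancel₀ h']
  · simp

theorem sum_en_coe (hgm : Measurable g) (t : Finset ℕ) (b : ℕ → ℂ) :
    ∀ᵐ x ∂μ, (∑ m ∈ t, b m • en μ p hgm m) x =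
      ∑ m ∈ t, (b m * ((wt m ^ (1 / p.toReal) : ℝ) : ℂ)) * hr m (g x) := by
  have e : ∑ m ∈ t, b m • en μ p hgm m =
      ∑ m ∈ t, (b m * ((wt m ^ (1 / p.toReal) : ℝ) : ℂ)) • eh μ p hgm m := by
    refine Finset.sum_congr rfl fun m _ => ?_
    unfold en
    rw [smul_smul]
  rw [e]
  exact sum_eh_coe (μ := μ) (p := p) hgm t _

theorem en_upper (hg : MeasurePreserving g μ (volume.restrict (Set.Ico (0:ℝ) 1)))
    (h1 : 1 < p) (hpt : p ≠ ∞) (t : Finset ℕ) (b : ℕ → ℂ) (hb : ∀ m ∈ t, ‖b m‖ ≤ 1) :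
    ‖∑ m ∈ t, b m • en μ p hg.measurable m‖ ≤ c0 p.toReal * (t.card : ℝ) ^ (1 / p.toReal) := by
  have hP : 0 < p.toReal := lt_trans one_pos (P_gt p h1 hpt)
  rw [norm_Lp_eq hpt _ _ (sum_en_coe (μ := μ) (p := p) hg.measurable t b)]
  have h2 := up_int hg hP t b hb
  calc (∫ x, ‖∑ m ∈ t, (b m * ((wt m ^ (1 / p.toReal) : ℝ) : ℂ)) * hr m (g x)‖ ^ p.toReal ∂μ)
        ^ (1 / p.toReal) ≤ (c0 p.toReal ^ p.toReal * t.card) ^ (1 / p.toReal) := by
        apply Real.rpow_le_rpow _ h2 (by positivity)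
        apply integral_nonneg
        intro x
        exact Real.rpow_nonneg (norm_nonneg _) _
    _ = c0 p.toReal * (t.card : ℝ) ^ (1 / p.toReal) := by
        rw [Real.mul_rpow (Real.rpow_nonneg (c0_pos hP).le _) (Nat.cast_nonneg _),
          ← Real.rpow_mul (c0_pos hP).le, mul_one_div_cancel hP.ne', Real.rpow_one]

theorem en_lower (hg : MeasurePreserving g μ (volume.restrict (Set.Ico (0:ℝ) 1)))
    (h1 : 1 < p) (hpt : p ≠ ∞) (t : Finset ℕ) (x : Lp ℂ p μ) (r : ℝ) (_hr0 : 0 ≤ r)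
    (hrr : ∀ m ∈ t, r ≤ ‖pn μ p hg.measurable m x‖) :
    r * (t.card : ℝ) ^ (1 / p.toReal) ≤ c0 (p.toReal.conjExponent) * ‖x‖ := by
  have hP1 := P_gt p h1 hpt
  have hP : 0 < p.toReal := lt_trans one_pos hP1
  set P := p.toReal with hPdef
  have hPQ : P.HolderConjugate P.conjExponent := Real.HolderConjugate.conjExponent hP1
  set Q := P.conjExponent with hQ
  have hQ0 : 0 < Q := hPQ.symm.pos
  -- the multiplier
  set c : ℕ → ℂ := fun m => if pn μ p hg.measurable m x = 0 then 0 else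
    (‖pn μ p hg.measurable m x‖ : ℂ) / pn μ p hg.measurable m x with hc
  have hc1 : ∀ m, ‖c m‖ ≤ 1 := by
    intro m
    simp only [hc]
    split_ifs with h
    · simp
    · rw [norm_div, Complex.norm_real, norm_norm, div_self (norm_ne_zero_iff.mpr h)]
  have hcm : ∀ m, c m * pn μ p hg.measurable m x = (‖pn μ p hg.measurable m x‖ : ℂ) := by
    intro m
    simp only [hc]
    split_ifs with h
    · rw [h]; simp
    · rw [div_mul_cancel₀ _ h]
  set Y : X → ℂ := fun y => ∑ m ∈ t, (c m * ((wt m ^ (1 / Q) : ℝ) : ℂ)) * hr m (g y) with hY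
  have hYm : Measurable Y := by
    apply Finset.measurable_sum
    intro m _
    exact (hr_gmeas hg.measurable m).const_mul _
  obtain ⟨B, hB⟩ : ∃ B : ℝ, ∀ y, ‖Y y‖ ≤ B := by
    refine ⟨∑ m ∈ t, ‖c m * ((wt m ^ (1 / Q) : ℝ) : ℂ)‖ * 1, fun y => ?_⟩
    refine (norm_sum_le _ _).trans (Finset.sum_le_sum fun m _ => ?_)
    rw [norm_mul]
    exact mul_le_mul_of_nonneg_left (norm_hr_le m (g y)) (norm_nonneg _)
  have hYmem : MemLp Y (ENNReal.ofReal Q) μ :=
    MemLp.of_bound hYm.aestronglyMeasurable B (Eventually.of_forall hB)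
  have hxmem : MemLp x (ENNReal.ofReal P) μ := by
    rw [hPdef, ENNReal.ofReal_toReal hpt]
    exact Lp.memLp x
  have hwt : ∀ m, (wt m ^ (1 / P))⁻¹ * wt m = wt m ^ (1 / Q) := by
    intro m
    have h2 : 1 / Q = 1 - 1 / P := by
      have := hPQ.inv_add_inv_eq_one
      rw [one_div, one_div]; linarith
    rw [h2, Real.rpow_sub (wt_pos m), Real.rpow_one]
    have := (wtp_pos P m).ne'
    field_simp
  have hsum : ∑ m ∈ t, ‖pn μ p hg.measurable m x‖ = ‖∫ y, x y * Y y ∂μ‖ := by
    have h3 : ∫ y, x y * Y y ∂μ = ((∑ m ∈ t, ‖pn μ p hg.measurable m x‖ : ℝ) : ℂ) := by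
      have h4 : ∀ y, x y * Y y = ∑ m ∈ t, (c m * ((wt m ^ (1 / Q) : ℝ) : ℂ)) * (x y * hr m (g y)) := by
        intro y
        simp only [hY]
        rw [Finset.mul_sum]
        refine Finset.sum_congr rfl fun m _ => ?_
        ring
      rw [integral_congr_ae (Eventually.of_forall h4), integral_finsetSum]
      · push_cast
        refine Finset.sum_congr rfl fun m _ => ?_
        rw [integral_const_mul, ← hcm m]
        unfold pn
        rw [_root_.smul_apply, smul_eq_mul, ph_apply, ← hPdef, ← hwt m]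
        push_cast
        ring
      · intro m _
        apply Integrable.const_mul
        exact integrable_mul_bdd x _ (hr_gmeas hg.measurable m).aestronglyMeasurable
          (fun y => norm_hr_le m (g y))
    rw [h3, Complex.norm_real, Real.norm_of_nonneg (Finset.sum_nonneg fun _ _ => norm_nonneg _)]
  have hHol : ‖∫ y, x y * Y y ∂μ‖ ≤ ‖x‖ * (c0 Q * (t.card : ℝ) ^ (1 / Q)) := by
    calc ‖∫ y, x y * Y y ∂μ‖ ≤ ∫ y, ‖x y‖ * ‖Y y‖ ∂μ := by
          refine (norm_integral_le_integral_norm _).trans (le_of_eq ?_)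
          congr 1
          funext y
          rw [norm_mul]
      _ ≤ (∫ y, ‖x y‖ ^ P ∂μ) ^ (1 / P) * (∫ y, ‖Y y‖ ^ Q ∂μ) ^ (1 / Q) :=
          integral_mul_norm_le_Lp_mul_Lq hPQ hxmem hYmem
      _ ≤ ‖x‖ * (c0 Q * (t.card : ℝ) ^ (1 / Q)) := by
          rw [norm_Lp_eq hpt x (fun y => x y) (Eventually.of_forall fun _ => rfl)]
          apply mul_le_mul_of_nonneg_left
          · have h5 := up_int hg hQ0 t c (fun m _ => hc1 m)
            calc (∫ y, ‖Y y‖ ^ Q ∂μ) ^ (1 / Q) ≤ (c0 Q ^ Q * t.card) ^ (1 / Q) := by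
                  apply Real.rpow_le_rpow _ h5 (by positivity)
                  apply integral_nonneg
                  intro y
                  exact Real.rpow_nonneg (norm_nonneg _) _
              _ = c0 Q * (t.card : ℝ) ^ (1 / Q) := by
                  rw [Real.mul_rpow (Real.rpow_nonneg (c0_pos hQ0).le _) (Nat.cast_nonneg _),
                    ← Real.rpow_mul (c0_pos hQ0).le, mul_one_div_cancel hQ0.ne', Real.rpow_one]
          · apply Real.rpow_nonneg
            apply integral_nonneg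
            intro y
            exact Real.rpow_nonneg (norm_nonneg _) _
  have hlow : r * t.card ≤ ∑ m ∈ t, ‖pn μ p hg.measurable m x‖ := by
    calc r * t.card = ∑ _m ∈ t, r := by rw [Finset.sum_const, nsmul_eq_mul, mul_comm]
      _ ≤ _ := Finset.sum_le_sum hrr
  have hmain : r * t.card ≤ ‖x‖ * (c0 Q * (t.card : ℝ) ^ (1 / Q)) := hlow.trans (hsum.le.trans hHol)
  rcases Nat.eq_zero_or_pos t.card with h0 | h0
  · rw [h0, Nat.cast_zero, Real.zero_rpow (by positivity), mul_zero]
    exact mul_nonneg (c0_pos hQ0).le (norm_nonneg _)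
  · have hn : (0:ℝ) < t.card := by exact_mod_cast h0
    have hnQ : 0 < (t.card : ℝ) ^ (1 / Q) := Real.rpow_pos_of_pos hn _
    have e : (t.card : ℝ) = (t.card : ℝ) ^ (1 / P) * (t.card : ℝ) ^ (1 / Q) := by
      rw [← Real.rpow_add hn]
      have := hPQ.inv_add_inv_eq_one
      rw [one_div, one_div, this, Real.rpow_one]
    have h6 : (r * (t.card : ℝ) ^ (1 / P)) * (t.card : ℝ) ^ (1 / Q) ≤
        (c0 Q * ‖x‖) * (t.card : ℝ) ^ (1 / Q) := by
      calc (r * (t.card : ℝ) ^ (1 / P)) * (t.card : ℝ) ^ (1 / Q) = r * t.card := by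
            rw [mul_assoc, ← e]
        _ ≤ ‖x‖ * (c0 Q * (t.card : ℝ) ^ (1 / Q)) := hmain
        _ = _ := by ring
    exact le_of_mul_le_mul_right h6 hnQ

/-- the Haar basis is a greedy basis -/
theorem haar_GB (hg : MeasurePreserving g μ (volume.restrict (Set.Ico (0:ℝ) 1)))
    (h1 : 1 < p) (hpt : p ≠ ∞) {C : ℝ} (H : HB (p := p) (μ := μ) hg C) :
    GB (en μ p hg.measurable) (pn μ p hg.measurable) (C * 1 * C)
      (c0 p.toReal * c0 p.toReal.conjExponent) (fun n => c0 p.toReal * (n : ℝ) ^ (1 / p.toReal)) := by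
  have hP1 := P_gt p h1 hpt
  have hP : 0 < p.toReal := lt_trans one_pos hP1
  have hPQ : p.toReal.HolderConjugate p.toReal.conjExponent := Real.HolderConjugate.conjExponent hP1
  refine ⟨?_, ?_, ?_, ?_, ?_, ?_⟩
  · have := H.pos; positivity
  · exact mul_pos (c0_pos hP) (c0_pos hPQ.symm.pos)
  · intro x
    have h2 := H.expand x
    simp only [pn_en_smul]
    exact h2
  · intro t x b hb
    set θ : ℕ → ℂ := fun m => if pn μ p hg.measurable m x = 0 then 0 else
      b m / pn μ p hg.measurable m x with hθ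
    have hθ1 : ∀ m ∈ t, ‖θ m‖ ≤ 1 := by
      intro m hm
      simp only [hθ]
      split_ifs with h
      · simp
      · rw [norm_div]
        exact div_le_one_of_le₀ (hb m hm) (norm_nonneg _)
    have e : ∑ m ∈ t, b m • en μ p hg.measurable m =
        ∑ m ∈ t, ph μ p hg.measurable m x • (θ m • eh μ p hg.measurable m) := by
      refine Finset.sum_congr rfl fun m hm => ?_
      have h3 : b m = θ m * pn μ p hg.measurable m x := by
        simp only [hθ]
        split_ifs with h
        · have h4 := hb m hm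
          rw [h, norm_zero] at h4
          rw [norm_le_zero_iff.mp h4, zero_mul]
        · rw [div_mul_cancel₀ _ h]
      rw [h3, mul_smul, pn_en_smul, smul_comm]
    rw [e]
    refine (H.mult t _ θ 1 zero_le_one hθ1).trans ?_
    have h5 := H.proj t x
    have h6 := H.pos
    calc C * 1 * ‖∑ m ∈ t, ph μ p hg.measurable m x • eh μ p hg.measurable m‖
        ≤ C * 1 * (C * ‖x‖) := mul_le_mul_of_nonneg_left h5 (by positivity)
      _ = C * 1 * C * ‖x‖ := by ring
  · intro t b hb τ hτ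
    have e : ∑ m ∈ t, b m • en μ p hg.measurable (τ m) =
        ∑ k ∈ t.image τ, b (Function.invFunOn τ t k) • en μ p hg.measurable k := by
      rw [Finset.sum_image hτ]
      refine Finset.sum_congr rfl fun m hm => ?_
      rw [hτ.leftInvOn_invFunOn (by exact hm)]
    rw [e, ← Finset.card_image_of_injOn hτ]
    apply en_upper hg h1 hpt
    intro k hk
    rw [Finset.mem_image] at hk
    obtain ⟨m, hm, rfl⟩ := hk
    rw [hτ.leftInvOn_invFunOn (by exact hm)]
    exact hb m hm
  · intro t x r hr0 hr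
    have h2 := en_lower hg h1 hpt t x r hr0 hr
    calc r * (c0 p.toReal * (t.card : ℝ) ^ (1 / p.toReal)) =
          c0 p.toReal * (r * (t.card : ℝ) ^ (1 / p.toReal)) := by ring
      _ ≤ c0 p.toReal * (c0 p.toReal.conjExponent * ‖x‖) :=
          mul_le_mul_of_nonneg_left h2 (c0_pos hP).le
      _ = _ := by ring

end Lp

end U329.SN
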